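import Pool.Agent.H25.RA1

set_option autoImplicit false

namespace Pool.Agent.Results.MP_a950c6_lc.NPHard
open Pool.Agent.H11.PT Pool.Agent.H25.CB Pool.Agent.H25.RA Finset

/-- vertex names -/
abbrev V := ℕ × ℕ × ℕ × ℕ

/-- a graph: list of vertices and list of edges -/
abbrev Gr := List V × List (V × V)

def G (y : Gr) : SimpleGraph {v // v ∈ y.1} := SimpleGraph.fromRel fun u v => (u.1, v.1) ∈ y.2

/-- intersection graph of closed intervals of the real line -/
def Interval {α : Type} (H : SimpleGraph α) : Prop :=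
  ∃ a b : α → ℝ, (∀ v, a v ≤ b v) ∧
    ∀ u v, u ≠ v → (H.Adj u v ↔ (Set.Icc (a u) (b u) ∩ Set.Icc (a v) (b v)).Nonempty)

/-- there is a locally surjective homomorphism from the first graph to the second -/
def Role (y : Gr × Gr) : Prop :=
  ∃ r : G y.1 →g G y.2, ∀ u, r '' (G y.1).neighborSet u = (G y.2).neighborSet (r u)

instance (g K : ℕ) (sz : ℕ → ℕ) (nl : ℕ → ℕ → ℕ → ℕ) (v : V) : Decidable (Mem g K sz nl v) := by
  unfold Mem; infer_instance
instance (u v : V) : Decidable (A u v) := by unfold A; infer_instance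

def vs (g J K : ℕ) (sz : ℕ → ℕ) (nl : ℕ → ℕ → ℕ → ℕ) : List V :=
  (List.range (g + 1) ×ˢ List.range J ×ˢ List.range K ×ˢ List.range 4).filter
    fun v => decide (Mem g K sz nl v)
def es (l : List V) : Gr := (l, (l ×ˢ l).filter fun e => decide (A e.1 e.2))

theorem mem_vs {g J K : ℕ} {sz : ℕ → ℕ} {nl : ℕ → ℕ → ℕ → ℕ} (hJ : 0 < J) (hK : 0 < K)
    (hs : ∀ i, sz i ≤ J) (v : V) : v ∈ vs g J K sz nl ↔ Mem g K sz nl v := by
  obtain ⟨a, b, c, d⟩ := v
  have := hs a
  simp only [vs, List.mem_filter, List.mem_product, List.mem_range, decide_eq_true_eq,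
    and_iff_right_iff_imp]
  dsimp only [Mem]; omega

theorem adj_es (l : List V) (u v : {v // v ∈ (es l).1}) : (G (es l)).Adj u v ↔ B u.1 v.1 := by
  have a : u.1 ∈ l := u.2
  have b : v.1 ∈ l := v.2
  simp only [G, es, SimpleGraph.fromRel_adj, List.mem_filter, List.mem_product, a, b,
    decide_eq_true_eq, true_and, B, and_iff_right_iff_imp]
  rintro h rfl
  unfold A at h; omega

theorem interval {g J K : ℕ} {sz : ℕ → ℕ} {nl : ℕ → ℕ → ℕ → ℕ} (hJ : 0 < J) (hK : 0 < K)
    (hs : ∀ i, sz i ≤ J) : Interval (G (es (vs g J K sz nl))) := by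
  have m := fun v : {v // v ∈ (es (vs g J K sz nl)).1} => (mem_vs hJ hK hs v.1).1 v.2
  refine ⟨fun v => lo J K v.1, fun v => hi J K v.1,
    fun v => Nat.cast_le.2 (intv hJ hs (m v) (m v)).1, fun u v e => ?_⟩
  rw [adj_es, (intv hJ hs (m u) (m v)).2 fun c => e (Subtype.ext c), Set.Icc_inter_Icc,
    Set.nonempty_Icc]
  simp only [sup_le_iff, le_inf_iff, Nat.cast_le, (intv hJ hs (m u) (m v)).1,
    (intv hJ hs (m v) (m u)).1, true_and, and_true, and_comm]

theorem role_iff (l l' : List V) (P Q : V → Prop) (h : ∀ v, v ∈ l ↔ P v) (h' : ∀ v, v ∈ l' ↔ Q v) :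
    Role (es l, es l') ↔ ∃ r, LS P Q r := by
  constructor
  · rintro ⟨r, hr⟩
    refine ⟨fun x => if k : x ∈ l then (r ⟨x, k⟩).1 else x, fun x hx => ?_⟩
    have k := (h x).2 hx
    simp only [dif_pos k]
    refine ⟨(h' _).1 (r ⟨x, k⟩).2, fun y hy e => ?_, fun w hw e => ?_⟩
    · rw [dif_pos ((h y).2 hy)]
      exact (adj_es ..).1 (r.map_adj ((adj_es l ⟨x, k⟩ ⟨y, (h y).2 hy⟩).2 e))
    · obtain ⟨y, y1, y2⟩ := (hr ⟨x, k⟩).ge ((adj_es l' (r ⟨x, k⟩) ⟨w, (h' w).2 hw⟩).2 e)
      exact ⟨y.1, (h _).1 y.2, (adj_es ..).1 y1, (dif_pos y.2).trans (congrArg Subtype.val y2)⟩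
  · rintro ⟨r, hr⟩
    let f : G (es l) →g G (es l') := ⟨fun x => ⟨r x.1, (h' _).2 (hr _ ((h _).1 x.2)).1⟩,
      fun {x y} e => (adj_es ..).2 ((hr _ ((h _).1 x.2)).2.1 _ ((h _).1 y.2) ((adj_es ..).1 e))⟩
    refine ⟨f, fun u => Set.Subset.antisymm ?_ fun w hw => ?_⟩
    · rintro _ ⟨y, hy, rfl⟩; exact f.map_adj hy
    · obtain ⟨y, y1, y2, y3⟩ := (hr _ ((h _).1 u.2)).2.2 w.1 ((h' _).1 w.2) ((adj_es ..).1 hw)
      exact ⟨⟨y, (h _).2 y1⟩, (adj_es ..).2 y2, Subtype.ext y3⟩

abbrev J := ℕ × List (ℕ × ℕ) × ℕ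

def ed (y : J) (i : ℕ) : ℕ × ℕ := y.2.1.getD (i / 2 - 2) (0, 0)
def sz (y : J) (i : ℕ) : ℕ := if i = 0 ∨ i = 2 * y.2.1.length + 3 then y.1 + 1
  else if i % 2 = 1 then min y.2.2 y.1 else y.1 + 1 - y.2.2
def ok (y : J) (i j t : ℕ) : Prop := t ≤ y.1 ∧ (i = 2 * y.2.1.length + 3 ∨ (i % 2 = 1 ∧ t < y.1) ∨
  (i % 2 = 0 ∧ (¬ j = 0 ∨ i < 4 ∨ t = (ed y i).1 ∨ t = (ed y i).2)))
instance (y : J) (i j t : ℕ) : Decidable (ok y i j t) := by unfold ok; infer_instance
def nl (y : J) (i j s : ℕ) : ℕ := if ok y i j (s - 1) then 2 else 1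
def red (y : J) : Gr × Gr :=
  (es (vs (2 * y.2.1.length + 4) (y.1 + 1) (2 * y.1 + 4) (sz y) (nl y)),
    es (vs 1 (y.1 + 1) (2 * y.1 + 4) (fun _ => y.1 + 1) one))

theorem szc (y : J) (i : ℕ) : ((i = 0 ∨ i = 2 * y.2.1.length + 3) ∧ sz y i = y.1 + 1) ∨
    (¬ (i = 0 ∨ i = 2 * y.2.1.length + 3) ∧ ((i % 2 = 1 ∧ sz y i = min y.2.2 y.1) ∨
      (¬ i % 2 = 1 ∧ sz y i = y.1 + 1 - y.2.2))) := by
  unfold sz; split_ifs <;> omega

theorem enum (C : Finset ℕ) (w : ℕ) : ∃ f : ℕ → ℕ, (w ∈ C → f 0 = w) ∧ (∀ j < #C, f j ∈ C) ∧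
    ∀ t ∈ C, ∃ j < #C, f j = t := by
  obtain ⟨l, h1, h2, h3⟩ : ∃ l : List ℕ, (w ∈ C → l.getD 0 0 = w) ∧ l.length = #C ∧
      ∀ t, t ∈ l ↔ t ∈ C := by
    by_cases h : w ∈ C
    · refine ⟨w :: (C.erase w).toList, fun _ => rfl, ?_, fun t => ?_⟩
      · rw [List.length_cons, length_toList, card_erase_add_one h]
      · by_cases e : t = w <;> simp [e, h]
    · exact ⟨C.toList, fun c => (h c).elim, length_toList _, fun t => mem_toList⟩
  refine ⟨fun j => l.getD j 0, h1, fun j hj => ?_, fun t ht => ?_⟩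
  · dsimp only
    rw [List.getD_eq_getElem _ _ (h2 ▸ hj)]
    exact (h3 _).1 (List.getElem_mem _)
  · obtain ⟨j, hj, rfl⟩ := List.getElem_of_mem ((h3 t).2 ht)
    exact ⟨j, h2 ▸ hj, List.getD_eq_getElem _ _ hj⟩

theorem core (y : J) (hy : ISV y) : IS y ↔ ∃ τ : ℕ → ℕ → ℕ,
    (∀ i < 2 * y.2.1.length + 4, ∀ j < sz y i, ok y i j (τ i j)) ∧
    ∀ i ≤ 2 * y.2.1.length + 4, ∀ t ≤ y.1, ∃ i' < 2 * y.2.1.length + 4, (i' = i ∨ i' + 1 = i) ∧
      ∃ j < sz y i', τ i' j = t := by
  have hk := hy.1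
  constructor
  · rintro ⟨U, h1, h2, h3⟩
    obtain ⟨I, i1, i2⟩ := exists_subset_card_eq h2
    let S : ℕ → Finset ℕ := fun i => if i = 0 ∨ i = 2 * y.2.1.length + 3 then range (y.1 + 1)
      else if i % 2 = 1 then I else range (y.1 + 1) \ I
    have hI : I ⊆ range (y.1 + 1) := fun v hv => mem_range.2 (Nat.lt_succ_of_lt (h1 v (i1 hv)))
    have hS : ∀ i, #(S i) = sz y i := fun i => by
      simp only [S, sz]
      split_ifs
      exacts [card_range _, by omega, by rw [card_sdiff_of_subset hI, card_range, i2]]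
    choose f f1 f2 f3 using fun i => enum (S i) (if (ed y i).1 ∈ I then (ed y i).2 else (ed y i).1)
    refine ⟨f, fun i hi j hj => ?_, fun i hi t ht => ?_⟩
    · have a := f2 i j (hS i ▸ hj)
      have b := f1 i
      simp only [S] at a b
      unfold ok
      split_ifs at a with c d
      · rw [mem_range] at a; omega
      · have := h1 _ (i1 a); omega
      · rw [mem_sdiff, mem_range] at a
        refine ⟨by omega, .inr (.inr ⟨by omega, ?_⟩)⟩
        by_contra! k
        obtain ⟨rfl, k1, k2, k3⟩ := k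
        have m : ed y i ∈ y.2.1 := by
          unfold ed
          rw [List.getD_eq_getElem _ _ (by omega)]; exact List.getElem_mem _
        have := hy.2 _ m
        rw [if_neg c, if_neg d, mem_sdiff, mem_range] at b
        split_ifs at b with e
        · exact k3 (b ⟨by omega, fun z => h3 _ m ⟨i1 e, i1 z⟩⟩)
        · exact k2 (b ⟨by omega, e⟩)
    · obtain ⟨i', a, b, c⟩ : ∃ i' < 2 * y.2.1.length + 4, (i' = i ∨ i' + 1 = i) ∧ t ∈ S i' := by
        have t1 : t ∈ range (y.1 + 1) := mem_range.2 (by omega)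
        by_cases c : t ∈ I
        · refine ⟨if i = 0 ∨ i % 2 = 1 then i else i - 1, by split_ifs <;> omega,
            by split_ifs <;> omega, ?_⟩
          simp only [S]; split_ifs <;> first | assumption | omega
        · refine ⟨if i % 2 = 0 ∧ i < 2 * y.2.1.length + 4 then i else i - 1, by split_ifs <;> omega,
            by split_ifs <;> omega, ?_⟩
          have := mem_sdiff.2 ⟨t1, c⟩
          simp only [S]; split_ifs <;> first | assumption | omega
      exact ⟨i', a, b, hS i' ▸ f3 i' t c⟩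
  · rintro ⟨τ, h1, h2⟩
    let S : ℕ → Finset ℕ := fun i => (range (sz y i)).image (τ i)
    have s1 : ∀ i, #(S i) ≤ sz y i := fun i => card_image_le.trans (card_range _).le
    have s2 : ∀ i, 1 ≤ i → i ≤ 2 * y.2.1.length + 1 → Disjoint (S i) (S (i + 1)) ∧
        S i ∪ S (i + 1) = range (y.1 + 1) := fun i a b => by
      have e : range (y.1 + 1) ⊆ S i ∪ S (i + 1) := fun t ht => by
        obtain ⟨i', -, rfl | c, j, d, rfl⟩ := h2 (i + 1) (by omega) t (by simpa [Nat.lt_succ_iff] using ht)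
        · exact mem_union_right _ (mem_image_of_mem _ (mem_range.2 d))
        · obtain rfl : i' = i := by omega
          exact mem_union_left _ (mem_image_of_mem _ (mem_range.2 d))
      have := card_le_card e
      have := s1 i
      have := s1 (i + 1)
      have : sz y i + sz y (i + 1) = y.1 + 1 := by
        have := szc y i
        have := szc y (i + 1)
        omega
      have := card_union_le (S i) (S (i + 1))
      rw [card_range] at *
      exact ⟨card_union_eq_card_add_card.1 (by omega),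
        (eq_of_subset_of_card_le e (by rw [card_range]; omega)).symm⟩
    have s3 : ∀ a ≤ y.2.1.length, S (2 * a + 2) = S 2 := fun a ha => by
      induction a with
      | zero => rfl
      | succ a ih =>
        obtain ⟨a1, a2⟩ := s2 (2 * a + 2) (by omega) (by omega)
        obtain ⟨b1, b2⟩ := s2 (2 * a + 2 + 1) (by omega) (by omega)
        rw [← ih (by omega), ← union_sdiff_cancel_right a1, a2, ← b2, union_sdiff_cancel_left b1]
        rfl
    obtain ⟨a1, a2⟩ := s2 1 le_rfl (by omega)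
    refine ⟨S 1, fun v hv => ?_, ?_, fun e he c => ?_⟩
    · obtain ⟨j, hj, rfl⟩ := mem_image.1 hv
      have := h1 1 (by omega) j (mem_range.1 hj)
      unfold ok at this; omega
    · have := card_union_le (S 1) (S (1 + 1))
      have := s1 (1 + 1)
      have := szc y (1 + 1)
      rw [a2, card_range] at *
      omega
    · obtain ⟨j, hj, rfl⟩ := List.getElem_of_mem he
      have z : 0 < sz y (2 * (j + 1) + 2) := by have := szc y (2 * (j + 1) + 2); omega
      have a := h1 _ (by omega) 0 z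
      have b : τ _ 0 ∈ S (2 * (j + 1) + 2) := mem_image_of_mem _ (mem_range.2 z)
      have e : ed y (2 * (j + 1) + 2) = y.2.1[j] := by
        unfold ed
        rw [show (2 * (j + 1) + 2) / 2 - 2 = j by omega, List.getD_eq_getElem _ _ hj]
      rw [s3 _ hj] at b
      refine disjoint_left.1 a1 ?_ b
      rw [ok, e] at a
      obtain a | a : τ (2 * (j + 1) + 2) 0 = y.2.1[j].1 ∨ τ (2 * (j + 1) + 2) 0 = y.2.1[j].2 := by
        omega
      exacts [a ▸ c.1, a ▸ c.2]

theorem hard : HardFor InNP (fun y : Gr × Gr => Interval (G y.1) ∧ Interval (G y.2)) Role := by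
  have hs : ∀ (y : J) i, sz y i ≤ y.1 + 1 := fun y i => by unfold sz; split_ifs <;> omega
  refine hard_IS.red red (by unfold red es vs Mem A one nl ok sz ed; fun_prop) fun y hy =>
    ⟨⟨interval (by omega) (by omega) (hs y), interval (by omega) (by omega) fun _ => le_rfl⟩, ?_⟩
  rw [core y hy, red, role_iff _ _ _ _ (mem_vs (by omega) (by omega) (hs y))
    (mem_vs (by omega) (by omega) fun _ => le_rfl)]
  constructor
  · rintro ⟨τ, h1, h2⟩
    exact to_role (by omega) (fun i j s => by unfold nl; split_ifs <;> omega) τ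
      (fun i hi j hj => ⟨(h1 i hi j hj).1, by simp [nl, h1 i hi j hj]⟩) h2
  · rintro ⟨r, h⟩
    obtain ⟨τ, h1, h2⟩ := of_role h (fun i hi => by
      have := hy.1
      refine ⟨if i % 2 = 0 ∧ i < 2 * y.2.1.length + 4 then i else i - 1, ?_, ?_, ?_⟩ <;>
        try unfold sz
      all_goals split_ifs <;> omega) fun i j s k => by
        unfold nl ok at k
        split_ifs at k <;> omega
    refine ⟨τ, fun i hi j hj => ?_, h2⟩
    have := (h1 i hi j hj).2
    unfold nl at this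
    split_ifs at this with k
    exacts [k, by omega]

theorem result : (NPHard fun y : Gr × Gr => Interval (G y.1) ∧ Role y) ∧
    NPHard fun y : Gr × Gr => (Interval (G y.1) ∧ Interval (G y.2)) ∧ Role y :=
  ⟨(hard.red id PT.id fun _ h => ⟨h.1, Iff.rfl⟩).npHard, hard.npHard⟩

end Pool.Agent.Results.MP_a950c6_lc.NPHard
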